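import Pool.Agent.H361R2.PP.Iface3
import Pool.Agent.H488R2.PPM.Mer

/-! Task PP-SM5 of helper361 (helper862), part a: the pointwise part (fixed `X`). -/

set_option autoImplicit false

open Finset

namespace Pool.Agent.H862R2.PPSm5

open Pool.Agent.H361R2.PP
open Pool.Agent.H410R2

theorem eqd_mono {o : Option ℕ} {P P' S : Finset ℕ} {Ω : ℝ} {Er : Finset ℕ → ℝ} (h : P' ⊆ P)
    (hE : Eqd o P S Ω Er) : Eqd o P' S Ω Er :=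
  ⟨fun n hn p hp => hE.1 n hn p (h hp), hE.2.1, fun D hD r hr => hE.2.2 D (hD.trans h) r hr⟩

/-- the body of `Sm4` -/
def Body (t : ℕ) (C c0 : ℝ) (K : ℕ) : Prop :=
  ∀ (o : Option ℕ) (δ : ℝ) (X b J D0 k0 : ℕ) (P2' : Finset ℕ) (S : Finset ℕ) (Ω : ℝ)
    (Er : Finset ℕ → ℝ) (u : Fin t → ℝ) (D : Dat t u c0 δ X) (B : Finset ℕ) (Y : Fin t → ℕ)
    (Y1 : ℕ) (SS : Finset (Finset ℕ)) (V d E : ℝ),
    J = JJ δ X → K ≤ b → K ≤ HH X → HH X < 2 ^ 2 ^ J → 1 ≤ J →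
    (∀ p ∈ P2', p.Prime ∧ 2 ^ 2 ^ J ≤ p) → (∀ τ, ∀ R ∈ D.S τ, R ⊆ P2' ∧ ∏ p ∈ R, p ≤ Y τ) →
    (∀ τ, 1 ≤ Y τ) → 1 ≤ Y1 → (∀ R ∈ SS, R ⊆ P2' ∧ ∏ p ∈ R, p ≤ Y1) →
    0 ≤ Ω → Eqd o (P1 (HH X) J ∪ P2') S Ω Er →
    ∑ T ∈ (P1 (HH X) J ∪ P2').powerset.filter (fun T : Finset ℕ => ∏ p ∈ T, p ≤ D0),
      (K : ℝ) ^ T.card * Er T ≤ E →
    (2 ^ 2 ^ J) ^ (K * b) * (Y1 * ∏ τ, Y τ) ^ 2 ≤ D0 → 0 < V → V ≤ 1 → d ≤ 1 →
    AC.Pi1 P2' ≤ C / V → (B.card : ℝ) * VV δ X ≤ C / V →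
    (∀ U ⊆ B, U.card ≤ 4 * t + 2 → EN.dl (ee o) rho (P1 (HH X) J ∪ P2') U ≤ d) →
    (∀ n ∈ S, ∀ a ∈ B, ((P2'.filter (fun p => p ∣ n + a)).card ≤ k0)) →
    (∀ c : (Fin t → Option ℕ) → ℝ, (∀ σ, |c σ| ≤ c0) →
      |∑ n ∈ S, AC.WW B c (xx D n) ^ 2 - Ω * ZZ D B c| ≤
        c0 ^ (2 * t + 2) * EN.EF t K b J B.card Ω V d E ∧
      (∀ a ∈ B, |∑ n ∈ S, (rg (P1 (HH X) J) a n * FS SS a n * AC.WW (B.erase a) c (xx D n)) ^ 2 -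
        Ω * (VV δ X * AC.GG SS * ZZ D (B.erase a) c)| ≤
        c0 ^ (2 * t + 2) * EN.EF t K b J B.card (Ω * VV δ X) V d E) ∧
      ∑ n ∈ S, AC.WW B c (xx D n) ^ 4 ≤ c0 ^ (4 * t + 4) * ((K / V) ^ K * 2 ^ (4 * t * k0) *
        (Ω + (B.card + 1 : ℝ) ^ (4 * t) * (((J : ℝ) + 2) * E))))

theorem sm4_body (h : Sm4) (t : ℕ) (C c0 : ℝ) (hC : 1 ≤ C) (hc : 1 ≤ c0) :
    ∃ K : ℕ, 1 ≤ K ∧ Body t C c0 K := h t C c0 hC hc

theorem mem_le_prod {R : Finset ℕ} (hR : ∀ p ∈ R, 1 ≤ p) {p : ℕ} (hp : p ∈ R) :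
    p ≤ ∏ q ∈ R, q := by
  rw [← Finset.mul_prod_erase R (fun q => q) hp]
  have : 1 ≤ ∏ q ∈ R.erase p, q := Nat.one_le_iff_ne_zero.2
    (Finset.prod_ne_zero_iff.2 fun q hq => by
      have := hR q (Finset.mem_of_mem_erase hq)
      omega)
  nlinarith

theorem pi1_mono {P P' : Finset ℕ} (h : P' ⊆ P) (hP : ∀ p ∈ P, p.Prime) :
    AC.Pi1 P' ≤ ∏ p ∈ P, (1 + (1 : ℝ) / ((p : ℝ) - 1)) := by
  have hone : ∀ p ∈ P, (1 : ℝ) ≤ 1 + 1 / ((p : ℝ) - 1) := by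
    intro p hp
    have h1 : (1 : ℝ) < p := by exact_mod_cast (hP p hp).one_lt
    have h2 : (0 : ℝ) < (p : ℝ) - 1 := by linarith
    have : 0 ≤ 1 / ((p : ℝ) - 1) := by positivity
    linarith
  unfold AC.Pi1
  rw [← Finset.prod_sdiff h]
  have h1 : (1 : ℝ) ≤ ∏ p ∈ P \ P', (1 + (1 : ℝ) / ((p : ℝ) - 1)) := by
    calc (1 : ℝ) = ∏ p ∈ P \ P', (1 : ℝ) := by rw [Finset.prod_const_one]
      _ ≤ _ := Finset.prod_le_prod (fun _ _ => zero_le_one)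
        (fun p hp => hone p (Finset.mem_sdiff.1 hp).1)
  have h2 : (0 : ℝ) ≤ ∏ p ∈ P', (1 + (1 : ℝ) / ((p : ℝ) - 1)) :=
    Finset.prod_nonneg fun p hp => by
      have := hone p (h hp)
      linarith
  nlinarith

/-- few large primes divide `n + a` -/
theorem few_primes {δ : ℝ} (hδ : 0 < δ) {X N z : ℕ} (hX : 2 ≤ X) {P : Finset ℕ}
    (hP : ∀ p ∈ P, p.Prime ∧ z ≤ p) (hz : (X : ℝ) ^ (δ / 2) ≤ z) (hN0 : 0 < N)
    (hN : (N : ℝ) ≤ (X : ℝ) ^ (2 : ℝ)) :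
    (P.filter (fun p => p ∣ N)).card ≤ ⌊4 / δ⌋₊ := by
  have hX1 : (1 : ℝ) < X := by exact_mod_cast (by omega : 1 < X)
  have hX0 : (0 : ℝ) < X := by linarith
  have h1 : ∏ p ∈ P.filter (fun p => p ∣ N), p ∣ N := by
    apply Finset.prod_primes_dvd
    · intro p hp
      exact (hP p (Finset.mem_filter.1 hp).1).1.prime
    · intro p hp
      exact (Finset.mem_filter.1 hp).2
  have h2 : ∏ p ∈ P.filter (fun p => p ∣ N), p ≤ N := Nat.le_of_dvd hN0 h1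
  have h3 : (((X : ℝ) ^ (δ / 2)) ^ (P.filter (fun p => p ∣ N)).card) ≤ (N : ℝ) := by
    calc ((X : ℝ) ^ (δ / 2)) ^ (P.filter (fun p => p ∣ N)).card
        = ∏ p ∈ P.filter (fun p => p ∣ N), (X : ℝ) ^ (δ / 2) := by rw [Finset.prod_const]
      _ ≤ ∏ p ∈ P.filter (fun p => p ∣ N), (p : ℝ) := by
        apply Finset.prod_le_prod
        · intro p _
          positivity
        · intro p hp
          refine hz.trans ?_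
          exact_mod_cast (hP p (Finset.mem_filter.1 hp).1).2
      _ ≤ N := by
        have h5 : ((∏ p ∈ P.filter (fun p => p ∣ N), p : ℕ) : ℝ) ≤ N := Nat.cast_le.2 h2
        rwa [Nat.cast_prod] at h5
  have h4 : (X : ℝ) ^ ((δ / 2) * (P.filter (fun p => p ∣ N)).card) ≤ (X : ℝ) ^ (2 : ℝ) := by
    rw [Real.rpow_mul hX0.le, Real.rpow_natCast]
    exact h3.trans hN
  rw [Real.rpow_le_rpow_left_iff hX1] at h4
  apply Nat.le_floor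
  rw [le_div_iff₀ hδ]
  linarith

theorem core_pt {t : ℕ} {c0 : ℝ} {K : ℕ} (h4 : Body t 1 c0 K)
    {u : Fin t → ℝ} {Λ θ δ V d : ℝ} {b X b0 : ℕ} (hu : ∀ τ, 0 < u τ) (hsum : ∑ τ, u τ ≤ θ / 2)
    (hθ : 0 < θ) (hθ1 : θ ≤ 1 / 32) (hδ : 0 < δ) (hδ1 : δ ≤ 1 / 8)
    (hKb : K ≤ b) (hδb : δ * (K * b) ≤ θ / 4) (hV0 : 0 < V) (hV1 : V ≤ 1) (hd : d ≤ 1)
    (hX16 : 16 ≤ X) (hKH : K ≤ HH X) (hw1 : (2 : ℝ) ^ 2 ^ JJ δ X ≤ (X : ℝ) ^ δ)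
    (hw2 : (X : ℝ) ^ (δ / 2) ≤ (2 : ℝ) ^ 2 ^ JJ δ X) (hw3 : HH X < 2 ^ 2 ^ JJ δ X)
    (hJ : 1 ≤ JJ δ X)
    (hPi : ∏ p ∈ P2 (JJ δ X) X, (1 + (1 : ℝ) / ((p : ℝ) - 1)) ≤ 1 / V)
    (hBV : ((BB X b0 ⌊Λ * Real.log X⌋₊).card : ℝ) * VV δ X ≤ 1 / V)
    (hΛ : 0 < Λ) (hΛX : Λ * Real.log X ≤ X)
    (hdl : ∀ P : Finset ℕ, (∀ p ∈ P, p.Prime ∧ HH X < p) → ∀ U : Finset ℕ, U.card ≤ 4 * t + 2 →
      (∀ a ∈ U, 1 ≤ a ∧ (a : ℝ) ≤ Λ * Real.log X) → ∀ o : Option ℕ,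
      (∀ a ∈ o, 1 ≤ a ∧ (a : ℝ) ≤ Λ * Real.log X ∧ a ∉ U) → EN.dl (ee o) rho P U ≤ d)
    {o : Option ℕ} {S : Finset ℕ} {Ω E : ℝ} {Er : Finset ℕ → ℝ} (hS : ∀ n ∈ S, n < 2 * X)
    (hΩ : 0 ≤ Ω)
    (hEq : Eqd o ((PX X).filter (fun p : ℕ => (p : ℝ) ≤ (X : ℝ) ^ (1 / 2 : ℝ))) S Ω Er)
    (hEs : ∑ D ∈ (PX X).powerset.filter
      (fun D : Finset ℕ => ∏ p ∈ D, (p : ℝ) ≤ (X : ℝ) ^ (1 / 2 - θ)),
      (K : ℝ) ^ D.card * Er D ≤ E)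
    (D : Dat t u c0 δ X) {B : Finset ℕ} (hB : B ⊆ BB X b0 ⌊Λ * Real.log X⌋₊)
    (ho : ∀ a ∈ o, 1 ≤ a ∧ (a : ℝ) ≤ Λ * Real.log X ∧ a ∉ B)
    (c : (Fin t → Option ℕ) → ℝ) (hc : ∀ σ, |c σ| ≤ c0) :
    |∑ n ∈ S, AC.WW B c (xx D n) ^ 2 - Ω * ZZ D B c| ≤
        c0 ^ (2 * t + 2) * EN.EF t K b (JJ δ X) B.card Ω V d E ∧
      (∀ a ∈ B, |∑ n ∈ S, (spec δ θ X a n * AC.WW (B.erase a) c (xx D n)) ^ 2 -
        Ω * (VV δ X * AC.GG (S1 δ θ X) * ZZ D (B.erase a) c)| ≤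
        c0 ^ (2 * t + 2) * EN.EF t K b (JJ δ X) B.card (Ω * VV δ X) V d E) ∧
      ∑ n ∈ S, AC.WW B c (xx D n) ^ 4 ≤ c0 ^ (4 * t + 4) *
        ((K / V) ^ K * 2 ^ (4 * t * ⌊4 / δ⌋₊) *
        (Ω + (B.card + 1 : ℝ) ^ (4 * t) * (((JJ δ X : ℝ) + 2) * E))) := by
  have hXr : (16 : ℝ) ≤ X := by exact_mod_cast hX16
  have hX0 : (0 : ℝ) < X := by linarith
  have hX1 : (1 : ℝ) ≤ X := by linarith
  have hlog : 0 ≤ Λ * Real.log X := mul_nonneg hΛ.le (Real.log_nonneg hX1)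
  set J := JJ δ X with hJdef
  set M : ℕ := 2 ^ 2 ^ J with hM
  have hMr : ((2 : ℝ) ^ 2 ^ J) = (M : ℝ) := by rw [hM]; push_cast; rfl
  rw [hMr] at hw1 hw2
  have hle : ∀ {x y : ℝ}, x ≤ y → (X : ℝ) ^ x ≤ (X : ℝ) ^ y := fun h =>
    Real.rpow_le_rpow_of_exponent_le hX1 h
  set z : ℕ := ⌊(X : ℝ) ^ (1 / 4 : ℝ)⌋₊ with hz
  have hzX : z ≤ X := by
    have h1 : (X : ℝ) ^ (1 / 4 : ℝ) ≤ X := by
      calc (X : ℝ) ^ (1 / 4 : ℝ) ≤ (X : ℝ) ^ (1 : ℝ) := hle (by norm_num)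
        _ = X := Real.rpow_one _
    have h2 : (z : ℝ) ≤ X := (Nat.floor_le (by positivity)).trans h1
    exact_mod_cast h2
  have hP2' : ∀ p ∈ P2 J z, p.Prime ∧ M ≤ p := fun p hp => (Finset.mem_filter.1 hp).2
  have hP2sub : P2 J z ⊆ P2 J X := by
    intro p hp
    unfold P2 at hp ⊢
    rw [Finset.mem_filter, Finset.mem_range] at hp ⊢
    exact ⟨by omega, hp.2⟩
  have hP1 : ∀ p ∈ P1 (HH X) J, p.Prime ∧ HH X < p := fun p hp => (Finset.mem_filter.1 hp).2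
  have hunion : ∀ p ∈ P1 (HH X) J ∪ P2 J z, p.Prime ∧ HH X < p := by
    intro p hp
    rcases Finset.mem_union.1 hp with h | h
    · exact hP1 p h
    · exact ⟨(hP2' p h).1, lt_of_lt_of_le hw3 (hP2' p h).2⟩
  have hsubPX : P1 (HH X) J ∪ P2 J z ⊆
      (PX X).filter (fun p : ℕ => (p : ℝ) ≤ (X : ℝ) ^ (1 / 2 : ℝ)) := by
    intro p hp
    obtain ⟨h1, h2⟩ := hunion p hp
    have h3 : (p : ℝ) ≤ (X : ℝ) ^ (1 / 2 : ℝ) := by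
      rcases Finset.mem_union.1 hp with h | h
      · have h5 : p < M := by
          have := (Finset.mem_filter.1 h).1
          rwa [Finset.mem_range] at this
        have h6 : (p : ℝ) ≤ M := by exact_mod_cast h5.le
        exact h6.trans (hw1.trans (hle (by linarith)))
      · have h5 : p < z + 1 := by
          have := (Finset.mem_filter.1 h).1
          rwa [Finset.mem_range] at this
        have h6 : (p : ℝ) ≤ z := by exact_mod_cast (by omega : p ≤ z)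
        exact h6.trans ((Nat.floor_le (by positivity)).trans (hle (by norm_num)))
    have h4 : p ≤ X := by
      have h5 : (X : ℝ) ^ (1 / 2 : ℝ) ≤ X := by
        calc (X : ℝ) ^ (1 / 2 : ℝ) ≤ (X : ℝ) ^ (1 : ℝ) := hle (by norm_num)
          _ = X := Real.rpow_one _
      exact_mod_cast h3.trans h5
    rw [Finset.mem_filter]
    unfold PX
    rw [Finset.mem_filter, Finset.mem_range]
    exact ⟨⟨by omega, h1, h2⟩, h3⟩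
  -- sets of primes with small product
  have hfam : ∀ (x : ℝ) (R : Finset ℕ), x ≤ 1 / 4 → R ⊆ P2 J X →
      ∏ p ∈ R, (p : ℝ) ≤ (X : ℝ) ^ x → R ⊆ P2 J z ∧ ∏ p ∈ R, p ≤ ⌊(X : ℝ) ^ x⌋₊ := by
    intro x R hx hR hprod
    refine ⟨?_, ?_⟩
    · intro p hp
      have h1 := Finset.mem_filter.1 (hR hp)
      unfold P2
      rw [Finset.mem_filter, Finset.mem_range]
      refine ⟨?_, h1.2⟩
      have h2 : p ≤ ∏ q ∈ R, q := mem_le_prod (fun q hq => (Finset.mem_filter.1 (hR hq)).2.1.one_le) hp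
      have h3 : (p : ℝ) ≤ (X : ℝ) ^ (1 / 4 : ℝ) := by
        have h5 : (p : ℝ) ≤ ∏ q ∈ R, (q : ℝ) := by
          have h6 : (p : ℝ) ≤ ((∏ q ∈ R, q : ℕ) : ℝ) := Nat.cast_le.2 h2
          rwa [Nat.cast_prod] at h6
        exact h5.trans (hprod.trans (hle hx))
      have := Nat.le_floor h3
      omega
    · apply Nat.le_floor
      push_cast
      exact hprod
  have hu4 : ∀ τ, u τ ≤ 1 / 4 := by
    intro τ
    have h1 : u τ ≤ ∑ τ, u τ := Finset.single_le_sum (fun i _ => (hu i).le) (Finset.mem_univ τ)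
    linarith
  have hone : ∀ x : ℝ, 0 ≤ x → 1 ≤ ⌊(X : ℝ) ^ x⌋₊ := by
    intro x hx
    apply Nat.le_floor
    simpa using Real.one_le_rpow hX1 hx
  -- the main inequality for the exponents
  have hD0 : M ^ (K * b) * (⌊(X : ℝ) ^ (1 / 4 - 2 * θ)⌋₊ * ∏ τ, ⌊(X : ℝ) ^ (u τ)⌋₊) ^ 2 ≤
      ⌊(X : ℝ) ^ (1 / 2 - θ)⌋₊ := by
    apply Nat.le_floor
    push_cast
    have h1 : (M : ℝ) ^ (K * b) ≤ (X : ℝ) ^ (θ / 4) := by
      calc (M : ℝ) ^ (K * b) ≤ ((X : ℝ) ^ δ) ^ (K * b) :=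
            pow_le_pow_left₀ (Nat.cast_nonneg _) hw1 _
        _ = (X : ℝ) ^ (δ * ((K * b : ℕ) : ℝ)) := by
            rw [← Real.rpow_natCast, ← Real.rpow_mul hX0.le]
        _ ≤ (X : ℝ) ^ (θ / 4) := by
            apply hle
            push_cast
            exact hδb
    have h2 : (⌊(X : ℝ) ^ (1 / 4 - 2 * θ)⌋₊ : ℝ) ≤ (X : ℝ) ^ (1 / 4 - 2 * θ) :=
      Nat.floor_le (by positivity)
    have h3 : ∏ τ, (⌊(X : ℝ) ^ (u τ)⌋₊ : ℝ) ≤ (X : ℝ) ^ (θ / 2) := by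
      calc ∏ τ, (⌊(X : ℝ) ^ (u τ)⌋₊ : ℝ) ≤ ∏ τ, (X : ℝ) ^ (u τ) := by
            apply Finset.prod_le_prod
            · intro i _
              positivity
            · intro i _
              exact Nat.floor_le (by positivity)
        _ = (X : ℝ) ^ (∑ τ, u τ) := by rw [Real.rpow_sum_of_pos hX0]
        _ ≤ (X : ℝ) ^ (θ / 2) := hle hsum
    have h5 : (⌊(X : ℝ) ^ (1 / 4 - 2 * θ)⌋₊ : ℝ) * ∏ τ, (⌊(X : ℝ) ^ (u τ)⌋₊ : ℝ) ≤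
        (X : ℝ) ^ (1 / 4 - 2 * θ) * (X : ℝ) ^ (θ / 2) :=
      mul_le_mul h2 h3 (by positivity) (by positivity)
    calc (M : ℝ) ^ (K * b) * ((⌊(X : ℝ) ^ (1 / 4 - 2 * θ)⌋₊ : ℝ) *
          ∏ τ, (⌊(X : ℝ) ^ (u τ)⌋₊ : ℝ)) ^ 2
        ≤ (X : ℝ) ^ (θ / 4) * ((X : ℝ) ^ (1 / 4 - 2 * θ) * (X : ℝ) ^ (θ / 2)) ^ 2 :=
          mul_le_mul h1 (pow_le_pow_left₀ (by positivity) h5 _) (by positivity) (by positivity)
      _ = (X : ℝ) ^ (θ / 4 + ((1 / 4 - 2 * θ) + θ / 2) * 2) := by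
          rw [Real.rpow_add hX0, ← Real.rpow_add hX0, Real.rpow_mul hX0.le]
          norm_num
      _ ≤ (X : ℝ) ^ (1 / 2 - θ) := hle (by linarith)
  have hBB : ∀ a ∈ BB X b0 ⌊Λ * Real.log X⌋₊, 1 ≤ a ∧ (a : ℝ) ≤ Λ * Real.log X := by
    intro a ha
    have h1 := Finset.mem_Icc.1 (Finset.mem_filter.1 ha).1
    exact ⟨h1.1, (Nat.le_floor_iff hlog).1 h1.2⟩
  have hErsum : ∑ T ∈ (P1 (HH X) J ∪ P2 J z).powerset.filter
      (fun T : Finset ℕ => ∏ p ∈ T, p ≤ ⌊(X : ℝ) ^ (1 / 2 - θ)⌋₊), (K : ℝ) ^ T.card * Er T ≤ E := by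
    refine le_trans ?_ hEs
    apply Finset.sum_le_sum_of_subset_of_nonneg
    · intro T hT
      rw [Finset.mem_filter, Finset.mem_powerset] at hT ⊢
      refine ⟨fun p hp => (Finset.mem_filter.1 (hsubPX (hT.1 hp))).1, ?_⟩
      have h1 := (Nat.le_floor_iff (by positivity)).1 hT.2
      push_cast at h1
      exact h1
    · intro T _ _
      exact mul_nonneg (by positivity) (hEq.2.1 T)
  have hVV0 : 0 ≤ VV δ X := by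
    unfold VV
    apply Finset.prod_nonneg
    intro p hp
    have h1 : (1 : ℝ) < p := by exact_mod_cast (hP1 p hp).1.one_lt
    rw [sub_nonneg, div_le_one (by linarith)]
    exact h1.le
  have main := h4 o δ X b J ⌊(X : ℝ) ^ (1 / 2 - θ)⌋₊ ⌊4 / δ⌋₊ (P2 J z) S Ω Er u D B
    (fun τ => ⌊(X : ℝ) ^ (u τ)⌋₊) ⌊(X : ℝ) ^ (1 / 4 - 2 * θ)⌋₊ (S1 δ θ X) V d E rfl hKb hKH hw3 hJ
    hP2' (by
      intro τ R hR
      obtain ⟨h1, h2⟩ := D.hS τ R hR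
      refine hfam (u τ) R (hu4 τ) h1 ?_
      have hpos : (0 : ℝ) < ∏ p ∈ R, (p : ℝ) := Finset.prod_pos fun p hp => by
        exact_mod_cast (Finset.mem_filter.1 (h1 hp)).2.1.pos
      rw [← Real.log_rpow hX0, Real.log_le_log_iff hpos (by positivity)] at h2
      exact h2) (fun τ => hone _ (hu τ).le) (hone _ (by linarith)) (by
      intro R hR
      have h1 := Finset.mem_filter.1 hR
      exact hfam _ R (by linarith) (Finset.mem_powerset.1 h1.1) h1.2) hΩ (eqd_mono hsubPX hEq)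
    hErsum hD0 hV0 hV1 hd
    ((pi1_mono hP2sub (fun p hp => (Finset.mem_filter.1 hp).2.1)).trans hPi)
    ((mul_le_mul_of_nonneg_right (by exact_mod_cast Finset.card_le_card hB) hVV0).trans hBV)
    (by
      intro U hU hUc
      exact hdl _ hunion U hUc (fun a ha => hBB a (hB (hU ha))) o
        (fun a ha => ⟨(ho a ha).1, (ho a ha).2.1, fun h => (ho a ha).2.2 (hU h)⟩))
    (by
      intro n hn a ha
      refine few_primes hδ (by omega) hP2' hw2 ?_ ?_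
      · have := (hBB a (hB ha)).1
        omega
      · have h1 := (hBB a (hB ha)).2
        have h2 : (n : ℝ) < 2 * X := by exact_mod_cast hS n hn
        push_cast
        rw [Real.rpow_two]
        nlinarith)
    c hc
  exact main

end Pool.Agent.H862R2.PPSm5
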