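import Pool.Agent.H862R2.PP.Sm5a

/-! Task PP-SM5 of helper361 (helper862), part b: choice of the parameters. -/

set_option autoImplicit false

open Finset Filter Topology

namespace Pool.Agent.H862R2.PPSm5

open Pool.Agent.H361R2.PP
open Pool.Agent.H410R2

theorem choose_b0 (n : ℕ) (s : ℝ) (hs : 0 < s) : ∃ b₀ : ℕ, ∀ b : ℕ, b₀ ≤ b →
    ((b : ℝ) + 1) ^ n * (1 / 2 : ℝ) ^ b ≤ s := by
  have h1 : Tendsto (fun m : ℕ => (m : ℝ) ^ n * (1 / 2 : ℝ) ^ m) atTop (𝓝 0) :=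
    tendsto_pow_const_mul_const_pow_of_abs_lt_one n (by rw [abs_of_pos] <;> norm_num)
  have h2 : ∀ᶠ m : ℕ in atTop, (m : ℝ) ^ n * (1 / 2 : ℝ) ^ m < s / 2 :=
    h1.eventually_lt_const (by positivity)
  obtain ⟨b₀, h⟩ := Filter.eventually_atTop.1 h2
  refine ⟨b₀, fun b hb => ?_⟩
  have h3 := h (b + 1) (by omega)
  push_cast at h3
  rw [pow_succ] at h3
  have h4 : ((b : ℝ) + 1) ^ n * ((1 / 2 : ℝ) ^ b * (1 / 2)) =
    (((b : ℝ) + 1) ^ n * (1 / 2 : ℝ) ^ b) / 2 := by ring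
  rw [h4] at h3
  linarith

theorem choose_delta (K M : ℕ) (θ s c : ℝ) (hK : 1 ≤ K) (hM : 1 ≤ M) (hθ : 0 < θ) (hs : 0 < s)
    (hc : 0 < c) : ∃ δ₀ : ℝ, 0 < δ₀ ∧ δ₀ ≤ 1 / 8 ∧ ∀ δ : ℝ, 0 < δ → δ ≤ δ₀ → ∃ b : ℕ, K ≤ b ∧
      δ * (K * b) ≤ θ / 4 ∧ c * (K / ((δ / M) ^ M) ^ K * (1 / 2 : ℝ) ^ b) ≤ s := by
  have hK0 : (0 : ℝ) < K := by exact_mod_cast hK
  have hM0 : (0 : ℝ) < M := by exact_mod_cast hM
  set q : ℝ := c * (K * (4 * K * M / θ) ^ (M * K)) with hq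
  have hq0 : 0 < q := by positivity
  obtain ⟨b₀, hb₀⟩ := choose_b0 (M * K) (s / q) (by positivity)
  refine ⟨min (1 / 8) (θ / (4 * K * (b₀ + K + 1))), lt_min (by norm_num) (by positivity),
    min_le_left _ _, fun δ hδ hδ1 => ?_⟩
  have hδ2 : δ ≤ θ / (4 * K * (b₀ + K + 1)) := hδ1.trans (min_le_right _ _)
  have hx0 : 0 < θ / (4 * K * δ) := by positivity
  set b : ℕ := ⌊θ / (4 * K * δ)⌋₊ with hb
  have hb1 : (b : ℝ) ≤ θ / (4 * K * δ) := Nat.floor_le hx0.le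
  have hb2 : θ / (4 * K * δ) < b + 1 := Nat.lt_floor_add_one _
  have hb3 : b₀ + K + 1 ≤ b := by
    apply Nat.le_floor
    push_cast
    rw [le_div_iff₀ (by positivity)]
    rw [le_div_iff₀ (by positivity)] at hδ2
    linarith
  refine ⟨b, by omega, ?_, ?_⟩
  · rw [le_div_iff₀ (by positivity)] at hb1
    linarith
  · have h1 : (M : ℝ) / δ ≤ 4 * K * M / θ * (b + 1) := by
      rw [div_lt_iff₀ (by positivity)] at hb2
      rw [div_le_iff₀ hδ, div_mul_eq_mul_div, div_mul_eq_mul_div, le_div_iff₀ hθ]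
      have : (M : ℝ) * θ ≤ M * ((b + 1) * (4 * K * δ)) := mul_le_mul_of_nonneg_left hb2.le hM0.le
      linarith
    have h2 : (K : ℝ) / ((δ / M) ^ M) ^ K = K * ((M : ℝ) / δ) ^ (M * K) := by
      rw [← pow_mul, div_pow, div_pow]
      field_simp
    rw [h2]
    have h3 : ((M : ℝ) / δ) ^ (M * K) ≤ (4 * K * M / θ) ^ (M * K) * ((b : ℝ) + 1) ^ (M * K) := by
      rw [← mul_pow]
      exact pow_le_pow_left₀ (by positivity) h1 _
    have h4 := hb₀ b (by omega)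
    calc c * (K * ((M : ℝ) / δ) ^ (M * K) * (1 / 2 : ℝ) ^ b)
        ≤ c * (K * ((4 * K * M / θ) ^ (M * K) * ((b : ℝ) + 1) ^ (M * K)) * (1 / 2 : ℝ) ^ b) := by
          gcongr
      _ = q * (((b : ℝ) + 1) ^ (M * K) * (1 / 2 : ℝ) ^ b) := by rw [hq]; ring
      _ ≤ q * (s / q) := mul_le_mul_of_nonneg_left h4 hq0.le
      _ = s := by field_simp

theorem choose_d (K : ℕ) (A s : ℝ) (hA : 0 ≤ A) (hs : 0 < s) : ∃ d : ℝ, 0 < d ∧ d ≤ 1 ∧
    A * (Real.exp (K * d) - 1) ≤ s := by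
  set d : ℝ := min (1 / ((K : ℝ) + 1)) (s / (2 * (A + 1) * (K + 1))) with hd
  have hd0 : 0 < d := lt_min (by positivity) (by positivity)
  have hd1 : d ≤ 1 / ((K : ℝ) + 1) := min_le_left _ _
  have hd2 : d ≤ s / (2 * (A + 1) * (K + 1)) := min_le_right _ _
  have hK : (0 : ℝ) ≤ K := Nat.cast_nonneg K
  rw [le_div_iff₀ (by positivity)] at hd1 hd2
  refine ⟨d, hd0, ?_, ?_⟩
  · nlinarith
  · have h1 : |(K : ℝ) * d| ≤ 1 := by
      rw [abs_of_nonneg (by positivity)]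
      nlinarith
    have h2 := Real.abs_exp_sub_one_le h1
    rw [abs_of_nonneg (show (0 : ℝ) ≤ K * d by positivity)] at h2
    have h3 : Real.exp (K * d) - 1 ≤ 2 * (K * d) := (le_abs_self _).trans h2
    calc A * (Real.exp (K * d) - 1) ≤ A * (2 * (K * d)) := mul_le_mul_of_nonneg_left h3 hA
      _ ≤ d * (2 * (A + 1) * (K + 1)) := by
        have h4 : 0 ≤ A * d := by positivity
        have h5 : 0 ≤ d * K := by positivity
        nlinarith
      _ ≤ s := hd2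

/-- lower bound of the density of the rough numbers -/
theorem vv_lower : ∃ c : ℝ, 0 < c ∧ c ≤ 1 ∧ ∀ (X : ℕ) (δ : ℝ), 0 < δ → δ ≤ 1 → 16 ≤ X →
    2 ≤ HH X → (2 : ℝ) ^ 2 ^ JJ δ X ≤ (X : ℝ) ^ δ → HH X < 2 ^ 2 ^ JJ δ X →
    c / Real.log X ≤ VV δ X := by
  obtain ⟨C, hC, hn1, _⟩ := Pool.Agent.H647R2.ACNT.nt
  refine ⟨1 / (2 * C), by positivity, ?_, fun X δ hδ hδ1 hX hH hw1 hw3 => ?_⟩
  · rw [div_le_one (by positivity)]
    linarith
  have hXr : (16 : ℝ) ≤ X := by exact_mod_cast hX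
  have hX0 : (0 : ℝ) < X := by linarith
  have hX1 : (1 : ℝ) ≤ X := by linarith
  set M : ℕ := 2 ^ 2 ^ JJ δ X with hM
  have hMr : ((2 : ℝ) ^ 2 ^ JJ δ X) = (M : ℝ) := by rw [hM]; push_cast; rfl
  rw [hMr] at hw1
  have hP : P1 (HH X) (JJ δ X) = AC.PP (HH X) (M - 1) := by
    unfold P1 AC.PP
    rw [← hM]
    have : M - 1 + 1 = M := by omega
    rw [this]
  have h1 := hn1 (HH X) (M - 1) hH (by omega)
  have h2 := Pool.Agent.H488R2.prod_inv (AC.PP (HH X) (M - 1))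
    (fun p hp => (Finset.mem_filter.1 hp).2.1)
  have h0 := Pool.Agent.H488R2.prod_pos' (AC.PP (HH X) (M - 1))
    (fun p hp => (Finset.mem_filter.1 hp).2.1)
  have hlogM : Real.log ((M - 1 : ℕ) : ℝ) ≤ Real.log X := by
    apply Real.log_le_log
    · have : 0 < M - 1 := by omega
      exact_mod_cast this
    · have h3 : (M : ℝ) ≤ X := by
        calc (M : ℝ) ≤ (X : ℝ) ^ δ := hw1
          _ ≤ (X : ℝ) ^ (1 : ℝ) := Real.rpow_le_rpow_of_exponent_le hX1 hδ1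
          _ = X := Real.rpow_one _
      have h4 : ((M - 1 : ℕ) : ℝ) ≤ M := by exact_mod_cast Nat.sub_le _ _
      linarith
  have hlogH : 1 / 2 ≤ Real.log (HH X : ℝ) := by
    have h3 : Real.log 2 ≤ Real.log (HH X : ℝ) := by
      apply Real.log_le_log (by norm_num)
      exact_mod_cast hH
    have := Real.log_two_gt_d9
    linarith
  have hlX : 0 < Real.log X := Real.log_pos (by linarith)
  have h3 : AC.Pi1 (AC.PP (HH X) (M - 1)) ≤ 2 * C * Real.log X := by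
    refine h1.trans ?_
    have h4 : Real.log ((M - 1 : ℕ) : ℝ) / Real.log (HH X : ℝ) ≤ Real.log X / (1 / 2) :=
      div_le_div₀ hlX.le hlogM (by norm_num) hlogH
    calc C * (Real.log ((M - 1 : ℕ) : ℝ) / Real.log (HH X : ℝ)) ≤ C * (Real.log X / (1 / 2)) :=
          mul_le_mul_of_nonneg_left h4 (by linarith)
      _ = 2 * C * Real.log X := by ring
  unfold VV
  rw [hP]
  rw [div_div, div_le_iff₀ (by positivity)]
  have h5 := mul_le_mul_of_nonneg_left h3 h0.le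
  rw [h2] at h5
  exact h5

theorem log_tendsto : Tendsto (fun X : ℕ => Real.log (X : ℝ)) atTop atTop :=
  Real.tendsto_log_atTop.comp tendsto_natCast_atTop_atTop

theorem HH_tendsto : Tendsto HH atTop atTop := by
  unfold HH
  apply tendsto_nat_floor_atTop.comp
  apply Filter.Tendsto.atTop_div_const (by norm_num)
  exact Real.tendsto_log_atTop.comp log_tendsto

theorem logs_small (Λ : ℝ) : ∀ᶠ X : ℕ in atTop, Λ * Real.log X ≤ X := by
  have h1 : Tendsto (fun x : ℝ => Real.log x / x) atTop (𝓝 0) := by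
    have := Real.isLittleO_log_id_atTop.tendsto_div_nhds_zero
    simpa using this
  have h2 : ∀ᶠ x : ℝ in atTop, |Real.log x / x| < 1 / (|Λ| + 1) := by
    have := h1.abs
    rw [abs_zero] at this
    exact this.eventually_lt_const (by positivity)
  have h3 := (tendsto_natCast_atTop_atTop (R := ℝ)).eventually (h2.and (eventually_gt_atTop 0))
  filter_upwards [h3] with X hX
  obtain ⟨h4, h5⟩ := hX
  rw [abs_div, abs_of_pos h5, div_lt_div_iff₀ h5 (by positivity)] at h4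
  have h6 : Λ * Real.log X ≤ |Λ| * |Real.log X| := by
    rw [← abs_mul]
    exact le_abs_self _
  have h7 := abs_nonneg (Real.log (X : ℝ))
  nlinarith

/-- size of `J` -/
theorem JJ_le {δ : ℝ} (hδ1 : δ ≤ 1) {X : ℕ} (hX : 16 ≤ X)
    (hw1 : (2 : ℝ) ^ 2 ^ JJ δ X ≤ (X : ℝ) ^ δ) : (JJ δ X : ℝ) + 2 ≤ 4 * Real.log X := by
  have hXr : (16 : ℝ) ≤ X := by exact_mod_cast hX
  have hX0 : (0 : ℝ) < X := by linarith
  have h1 : Real.log ((2 : ℝ) ^ 2 ^ JJ δ X) ≤ Real.log ((X : ℝ) ^ δ) :=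
    Real.log_le_log (by positivity) hw1
  rw [Real.log_pow, Real.log_rpow hX0] at h1
  have h2 : (JJ δ X : ℝ) ≤ ((2 ^ JJ δ X : ℕ) : ℝ) := by exact_mod_cast (Nat.lt_two_pow_self).le
  have h3 := Real.log_two_gt_d9
  have hl : Real.log 16 ≤ Real.log X := Real.log_le_log (by norm_num) hXr
  have h16 : Real.log 16 = 4 * Real.log 2 := by
    rw [show (16 : ℝ) = 2 ^ 4 by norm_num, Real.log_pow]
    norm_num
  have h4 : δ * Real.log X ≤ Real.log X := by nlinarith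
  have h5 : (0 : ℝ) ≤ ((2 ^ JJ δ X : ℕ) : ℝ) := Nat.cast_nonneg _
  nlinarith

/-- powers of `log X` are absorbed -/
theorem absorb (t : ℕ) (Λ c s : ℝ) (hΛ : 0 < Λ) (hc : 0 ≤ c) (hs : 0 < s) :
    ∀ᶠ X : ℕ in atTop, ∀ (k J : ℕ), (k : ℝ) ≤ Λ * Real.log X → (J : ℝ) + 2 ≤ 4 * Real.log X →
      1 ≤ Real.log X ∧
      c * (((k : ℝ) + 1) ^ (4 * t + 2) * (((J : ℝ) + 2) * (1 / Real.log X ^ (4 * t + 6)))) ≤
        s / Real.log X := by
  set q : ℝ := c * ((Λ + 1) ^ (4 * t + 2) * 4) with hq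
  have hq0 : 0 ≤ q := by positivity
  filter_upwards [log_tendsto.eventually_ge_atTop (max 1 (q / s))] with X hX k J hk hJ
  have h1 : 1 ≤ Real.log X := (le_max_left _ _).trans hX
  have h2 : q / s ≤ Real.log X := (le_max_right _ _).trans hX
  refine ⟨h1, ?_⟩
  set L := Real.log X with hL
  have hL0 : 0 < L := by linarith
  have h3 : (k : ℝ) + 1 ≤ (Λ + 1) * L := by nlinarith
  have h4 : ((k : ℝ) + 1) ^ (4 * t + 2) ≤ (Λ + 1) ^ (4 * t + 2) * L ^ (4 * t + 2) := by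
    rw [← mul_pow]
    exact pow_le_pow_left₀ (by positivity) h3 _
  calc c * (((k : ℝ) + 1) ^ (4 * t + 2) * (((J : ℝ) + 2) * (1 / L ^ (4 * t + 6))))
      ≤ c * (((Λ + 1) ^ (4 * t + 2) * L ^ (4 * t + 2)) * ((4 * L) * (1 / L ^ (4 * t + 6)))) := by
        gcongr
    _ = q / L ^ 3 := by
        rw [hq]
        have : L ^ (4 * t + 6) = L ^ (4 * t + 2) * L * L ^ 3 := by ring
        rw [this]
        field_simp
    _ ≤ s / L := by
        rw [div_le_div_iff₀ (by positivity) hL0]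
        rw [div_le_iff₀ hs] at h2
        have h5 : 1 ≤ L ^ 2 := one_le_pow₀ h1
        have h6 : q ≤ s * L := by linarith
        have h7 : s * L ≤ s * L ^ 2 := by nlinarith
        have h8 : q * L ≤ (s * L ^ 2) * L := mul_le_mul_of_nonneg_right (h6.trans h7) hL0.le
        calc q * L ≤ (s * L ^ 2) * L := h8
          _ = s * L ^ 3 := by ring

end Pool.Agent.H862R2.PPSm5
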